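import Pool.Agent.MP_b64966_al.GC.TypeA

namespace Pool.Agent.MP_b64966_al.GC

open Module Pool.Agent.MP_b64966_al.PG

universe u

variable {N : ℕ} {K : Type u} [Field K] {V : Type u} [AddCommGroup V] [Module K V]

def Pv (s : ℕ → Kˣ) (j k i : ℕ) : K :=
  if i = j then -(s j : K) else if j < i ∧ i < k then 1 - (s i : K) else if i = k then 1 else 0

theorem act_sg {i : ℕ} (h : i + 1 < N) : act K V N (sg N i) = step K V i :=
  braidLift_sg _ _ _ h

theorem act_A {j k : ℕ} (hj : j < k) (hk : k < N) (p : (ℕ → Kˣ) × (ℕ → V)) :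
    act K V N (A N j k) p = (p.1, fun i => p.2 i +
      Pv p.1 j k i • ((1 - (p.1 k : K)) • p.2 j - (1 - (p.1 j : K)) • p.2 k)) := by
  induction k, hj using Nat.le_induction generalizing p with
  | base =>
    rw [show A N j j.succ = A N j (j + 1) from rfl, A_succ, map_pow, act_sg hk, sq,
      Equiv.Perm.mul_apply]
    refine Prod.ext (funext fun i => by simp [step_fst]) (funext fun i => ?_)
    have e3 : j + 1 ≠ j := by omega
    have e4 : ¬ (j + 1 < j + 1) := by omega
    simp only [step_snd, step_fst, Function.comp_apply, Equiv.swap_apply_left,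
      Equiv.swap_apply_right, Pv, Nat.succ_eq_add_one]
    by_cases h1 : i = j
    · simp only [h1, e3, if_true, if_false]
      module
    · by_cases h2 : i = j + 1
      · simp only [h2, e3, e4, if_true, if_false, and_false]
        module
      · have h3 : ¬ (j < i ∧ i < j + 1) := by omega
        simp only [h1, h2, h3, if_false, zero_smul, add_zero]
  | succ k hj ih =>
    have hj' : j < k := hj
    obtain ⟨q, rfl⟩ := (step K V k).surjective p
    rw [← A_raise hj', map_mul, map_mul, map_inv, act_sg hk, Equiv.Perm.mul_apply,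
      Equiv.Perm.mul_apply, show (step K V k)⁻¹ (step K V k q) = q from
        (step K V k).symm_apply_apply q, ih (by omega)]
    refine Prod.ext rfl (funext fun i => ?_)
    have e1 : j ≠ k := by omega
    have e2 : j ≠ k + 1 := by omega
    have e3 : k + 1 ≠ k := by omega
    have e4 : k ≠ j := by omega
    have e5 : k + 1 ≠ j := by omega
    have e6 : ¬ (k < k) := by omega
    have e7 : ¬ (k + 1 < k) := by omega
    have e8 : k < k + 1 := by omega
    have e9 : ¬ (k + 1 < k + 1) := by omega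
    simp only [step_snd, step_fst, Function.comp_apply,
      Equiv.swap_apply_right, Equiv.swap_apply_of_ne_of_ne e1 e2, Pv, e1, e2, e3, e4, e5, e6, e7,
      if_true, if_false, and_false]
    by_cases h1 : i = k
    · simp only [h1, e4, hj', e8, if_true, if_false, and_self, Equiv.swap_apply_left]
      module
    · by_cases h2 : i = k + 1
      · simp only [h2, e3, e5, e9, if_true, if_false, and_false]
      · have h3 : (j < i ∧ i < k + 1) ↔ (j < i ∧ i < k) := by omega
        simp only [h1, h2, h3, if_false, Equiv.swap_apply_of_ne_of_ne h1 h2]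

theorem fix_Fs {k : ℕ} (hk : k < N) {p : (ℕ → Kˣ) × (ℕ → V)} (h1 : p.1 k = 1) (h2 : p.2 k = 0)
    {f : BraidGroup N} (hf : f ∈ Fs N k) : act K V N f p = p := by
  induction hf using Subgroup.closure_induction with
  | mem x hx =>
    obtain ⟨j, hj, rfl⟩ := hx
    rw [act_A hj hk]
    refine Prod.ext rfl (funext fun i => ?_)
    simp [h1, h2]
  | one => simp
  | mul x y _ _ a b => rw [map_mul, Equiv.Perm.mul_apply, b, a]
  | inv x _ a => rw [map_inv, Equiv.Perm.inv_eq_iff_eq, a]

theorem b_one {k : ℕ} (hk : k < N) {R : BraidGroup N → End K V} {lam : BraidGroup N → K}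
    (h : Good (k + 1) R lam) {t : ℕ → Kˣ} {μ : Kˣ} {v : ℕ → V}
    (hspan : Submodule.span K {w | ∃ j < k, w = v j} = ⊤) (hnf : NF k (Xg k R lam 1) t μ v)
    {b : BraidGroup N} (hB : b ∈ Bs N k) (hP : b ∈ Ps N (k + 1))
    (hb : act K V N b (t, v) = (t, v)) : b = 1 := by
  have h2 := nf_act (M := k + 1) (by omega) hk h hnf hB
  rw [hb] at h2
  obtain ⟨ι, h1, -⟩ := exists_iota (N := N) (m := k) hk.le
  have hr : Bs N k ≤ ι.range := by
    refine (Subgroup.closure_le _).2 ?_
    rintro x ⟨i, hi, rfl⟩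
    exact ⟨sg k i, h1 i hi⟩
  obtain ⟨κ, rfl⟩ := hr hB
  rw [artin_faithful le_rfl hk ι h1 κ fun a ha => ?_, map_one]
  have hA : A N a k ∈ Ps N (k + 1) := A_mem ha (by omega) hk
  have hAF : A N a k ∈ Fs N k := A_Fs ha
  have hX : Xg k R lam (ι κ) a = Xg k R lam 1 a := by
    refine LinearMap.ext_on hspan ?_
    rintro _ ⟨j, hj, rfl⟩
    exact (h2 a ha j hj).trans (hnf a ha j hj).symm
  have hl : lam ((ι κ)⁻¹ * A N a k * ι κ) = lam (A N a k) := by
    simpa using h.lamc _ (inv_mem hP) _ hA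
  unfold Xg at hX
  rw [hl] at hX
  simp only [inv_one, one_mul, mul_one] at hX
  have hX2 := smul_right_injective _ (inv_ne_zero (h.lam0 _)) hX
  have hc : (ι κ)⁻¹ * A N a k * ι κ ∈ Fs N k := by
    simpa using Fs_norm hk (inv_mem hB) hAF
  have h1 := h.pf _ (mul_mem hc (inv_mem hAF)) ⟨1, by
    rw [h.rep.2 _ (Fs_le (by omega) hk hc) _ (inv_mem hA), hX2, h.rep.mul_inv hA, one_smul]⟩
  have h3 : (ι κ)⁻¹ * A N a k * ι κ = A N a k := mul_inv_eq_one.1 h1
  show ι κ * A N a k = A N a k * ι κ
  conv_lhs => rw [← h3]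
  group

theorem t_ne {k : ℕ} (hk : 2 ≤ k) {X : ℕ → End K V} {t : ℕ → Kˣ} {μ : Kˣ} {v : ℕ → V}
    (hspan : Submodule.span K {w | ∃ j < k, w = v j} = ⊤) (hnf : NF k X t μ v)
    (hn0 : ∀ j < k, X j ≠ 1)
    (hinj : ∀ q < k, ∀ d < k, q ≠ d → ∀ w, (X d - 1) ((X q - 1) w) = 0 → (X q - 1) w = 0)
    {a : ℕ} (ha : a < k) : (1 : K) - t a ≠ 0 := by
  intro h0
  apply hn0 a ha
  obtain ⟨d, hd, hne⟩ : ∃ d < k, a ≠ d := by
    by_cases h : a = 0
    · exact ⟨1, by omega, by omega⟩
    · exact ⟨0, by omega, h⟩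
  refine LinearMap.ext_on hspan ?_
  rintro _ ⟨j, hj, rfl⟩
  have h1 : (X a - 1) (v j) = gam t μ a j • v a := by
    simp [hnf a ha j hj]
  have h2 : gam t μ d a = 0 := by
    unfold gam
    rw [if_neg hne.symm, h0]
    simp
  have h3 := hinj a ha d hd hne (v j) (by
    rw [h1, map_smul]
    simp [hnf d hd a ha, h2])
  simpa [sub_eq_zero] using h3

/-- the Gassner matrix of `A_{ak}` -/
def Lm (s : ℕ → Kˣ) (a k : ℕ) : (ℕ → K) →ₗ[K] (ℕ → K) where
  toFun w := fun i => w i + Pv s a k i • ((1 - (s k : K)) • w a - (1 - (s a : K)) • w k)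
  map_add' x y := by
    funext i
    simp only [Pi.add_apply, smul_eq_mul]
    ring
  map_smul' c x := by
    funext i
    simp only [Pi.smul_apply, smul_eq_mul, RingHom.id_apply]
    ring

theorem f_one {k : ℕ} (hk : k < N) {R : BraidGroup N → End K V} {lam : BraidGroup N → K}
    (hR : IsRep (Ps N (k + 1)) R) (hF : PF (Fs N k) R) (hl : ∀ a, lam a ≠ 0)
    {t : ℕ → Kˣ} {μ : Kˣ} {v : ℕ → V}
    (hspan : Submodule.span K {w | ∃ j < k, w = v j} = ⊤) (hnf : NF k (Xg k R lam 1) t μ v)
    (ht : ∀ a < k, (1 : K) - t a ≠ 0) {f : BraidGroup N} (hf : f ∈ Fs N k)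
    (htr : ∀ (s : ℕ → Kˣ) (w : ℕ → K), act K K N f (s, w) = (s, w)) : f = 1 := by
  let s : ℕ → Kˣ := fun i => if i = k then μ else (t i)⁻¹
  have sk : s k = μ := if_pos rfl
  have sa : ∀ a < k, s a = (t a)⁻¹ := fun a ha => if_neg ha.ne
  let gen : Fin k → (ℕ → K) × V := fun b => (((1 : K) - t b) • Pv s b k, v b)
  let Γ : Submodule K ((ℕ → K) × V) := Submodule.span K (Set.range gen)
  have hgen : ∀ a b : Fin k, (Lm s a k).prodMap (Xg k R lam 1 a) (gen b) =
      gen b + gam t μ a b • gen a := by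
    intro a b
    refine Prod.ext (funext fun i => ?_) (hnf a a.2 b b.2)
    have hb := b.2
    have ha := a.2
    have e1 : Pv s b k k = 1 := by
      unfold Pv
      rw [if_neg (by omega), if_neg (by omega), if_pos rfl]
    show ((1 : K) - t b) * Pv s b k i + Pv s a k i *
        ((1 - (s k : K)) * (((1 : K) - t b) * Pv s b k a) -
          (1 - (s a : K)) * (((1 : K) - t b) * Pv s b k k)) =
      ((1 : K) - t b) * Pv s b k i + gam t μ a b * (((1 : K) - t a) * Pv s a k i)
    rw [e1, sk, sa a ha]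
    have hu : (((t a)⁻¹ : Kˣ) : K) * (t a : K) = 1 := Units.inv_mul _
    rcases lt_trichotomy (a : ℕ) b with h | h | h
    · have e2 : Pv s b k a = 0 := by
        unfold Pv
        rw [if_neg (by omega), if_neg (by omega), if_neg (by omega)]
      have e3 : gam t μ a b = (((t a)⁻¹ : Kˣ) : K) * (1 - (t b : K)) := if_pos h
      rw [e2, e3]
      linear_combination (Pv s a k i * (1 - (t b : K))) * hu
    · have e2 : Pv s b k a = -(((t a)⁻¹ : Kˣ) : K) := by
        unfold Pv
        rw [if_pos h, ← h, sa a ha]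
      have e3 : gam t μ a b = (μ : K) * (((t a)⁻¹ : Kˣ) : K) - 1 := by
        unfold gam
        rw [if_neg (by omega), if_pos h]
      rw [e2, e3, ← h]
      ring
    · have e2 : Pv s b k a = 1 - (((t a)⁻¹ : Kˣ) : K) := by
        unfold Pv
        rw [if_neg (by omega), if_pos ⟨h, ha⟩, sa a ha]
      have e3 : gam t μ a b = (μ : K) * (((t a)⁻¹ : Kˣ) : K) * (1 - (t b : K)) := by
        unfold gam
        rw [if_neg (by omega), if_neg (by omega)]
      rw [e2, e3]
      linear_combination (Pv s a k i * (1 - (t b : K)) * (μ : K)) * hu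
  have hg : ∀ b, gen b ∈ Γ := fun b => Submodule.subset_span ⟨b, rfl⟩
  have hmap : ∀ a : Fin k, Γ.map ((Lm s a k).prodMap (Xg k R lam 1 a)) = Γ := by
    intro a
    refine le_antisymm ?_ ?_
    · rw [Submodule.map_span_le]
      rintro _ ⟨b, rfl⟩
      rw [hgen]
      exact add_mem (hg b) (Submodule.smul_mem _ _ (hg a))
    · rw [Submodule.span_le]
      rintro _ ⟨b, rfl⟩
      have hx : (1 : K) + gam t μ a a ≠ 0 := by
        unfold gam
        rw [if_neg (lt_irrefl _), if_pos rfl, add_sub_cancel]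
        exact mul_ne_zero μ.ne_zero (Units.ne_zero _)
      refine ⟨gen b - (gam t μ a b * (1 + gam t μ a a)⁻¹) • gen a,
        sub_mem (hg b) (Submodule.smul_mem _ _ (hg a)), ?_⟩
      rw [map_sub, map_smul, hgen, hgen]
      have : gen a + gam t μ a a • gen a = (1 + gam t μ a a) • gen a := by module
      rw [this, smul_smul, mul_assoc, inv_mul_cancel₀ hx, mul_one, add_sub_cancel_right]
  have key : ∀ g ∈ Fs N k, ∃ ρ : K, ρ ≠ 0 ∧ ∃ L : (ℕ → K) →ₗ[K] (ℕ → K),
      (∀ w, act K K N g (s, w) = (s, L w)) ∧ Γ.map (L.prodMap (ρ • R g)) = Γ := by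
    intro g hg
    induction hg using Subgroup.closure_induction with
    | mem x hx =>
      obtain ⟨j, hj, rfl⟩ := hx
      refine ⟨(lam (A N j k))⁻¹, inv_ne_zero (hl _), Lm s j k, fun w => act_A hj hk _, ?_⟩
      have := hmap ⟨j, hj⟩
      simpa only [Xg, inv_one, one_mul, mul_one] using this
    | one =>
      refine ⟨1, one_ne_zero, LinearMap.id, fun w => by simp, ?_⟩
      rw [hR.1, one_smul]
      exact Submodule.map_id Γ
    | mul x y hx hy a b =>
      obtain ⟨ρ, h1, L, h2, h3⟩ := a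
      obtain ⟨ρ', h1', L', h2', h3'⟩ := b
      refine ⟨ρ * ρ', mul_ne_zero h1 h1', L.comp L', fun w => ?_, ?_⟩
      · rw [map_mul, Equiv.Perm.mul_apply, h2', h2]
        rfl
      · have e : (L.comp L').prodMap ((ρ * ρ') • R (x * y)) =
            (L.prodMap (ρ • R x)).comp (L'.prodMap (ρ' • R y)) := by
          rw [hR.2 _ (Fs_le (by omega) hk hx) _ (Fs_le (by omega) hk hy), LinearMap.prodMap_comp,
            ← smul_mul_smul_comm]
          rfl
        rw [e, Submodule.map_comp, h3', h3]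
    | inv x hx a =>
      obtain ⟨ρ, h1, L, h2, h3⟩ := a
      have hxP := Fs_le (by omega) hk hx (n := k + 1)
      have hbij : Function.Bijective L := by
        refine ⟨fun w w' h => ?_, fun w => ?_⟩
        · have := (act K K N x).injective ((h2 w).trans (by rw [h, h2 w']))
          exact congrArg Prod.snd this
        · obtain ⟨q, hq⟩ := (act K K N x).surjective (s, w)
          have hq1 : q.1 = s := by
            rw [← act_fst_pure hxP.2 q, hq]
          refine ⟨q.2, ?_⟩
          have := h2 q.2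
          rw [← hq1, Prod.mk.eta, hq, hq1] at this
          exact (congrArg Prod.snd this).symm
      let E := LinearEquiv.ofBijective L hbij
      have hE : ∀ w, L (E.symm w) = w := fun w => E.apply_symm_apply w
      have hE' : ∀ w, E.symm (L w) = w := fun w => E.symm_apply_apply w
      refine ⟨ρ⁻¹, inv_ne_zero h1, E.symm.toLinearMap, fun w => ?_, ?_⟩
      · rw [map_inv, Equiv.Perm.inv_eq_iff_eq, h2]
        exact congrArg (Prod.mk s) (hE w).symm
      · conv_lhs => rw [← h3]
        rw [← Submodule.map_comp, LinearMap.prodMap_comp]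
        have e1 : E.symm.toLinearMap.comp L = LinearMap.id := LinearMap.ext hE'
        have e2 : (ρ⁻¹ • R x⁻¹).comp (ρ • R x) = LinearMap.id := by
          show (ρ⁻¹ • R x⁻¹) * (ρ • R x) = 1
          rw [smul_mul_smul_comm, hR.inv_mul hxP, inv_mul_cancel₀ h1, one_smul]
        rw [e1, e2]
        exact Submodule.map_id Γ
  have hzero : ∀ w : V, ((0 : ℕ → K), w) ∈ Γ → w = 0 := by
    intro w hw
    obtain ⟨c, hc⟩ := (Submodule.mem_span_range_iff_exists_fun K).1 hw
    have hc0 : ∀ n : ℕ, ∀ b : Fin k, (b : ℕ) = n → c b = 0 := by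
      intro n
      induction n using Nat.strong_induction_on with
      | _ n ih =>
      intro b hb
      have h1 := congrFun (congrArg Prod.fst hc) b
      rw [Prod.fst_sum, Finset.sum_apply, Finset.sum_eq_single b] at h1
      · have e2 : Pv s b k b = -(s b : K) := if_pos rfl
        have h2 : c b * (((1 : K) - t b) * Pv s b k b) = 0 := h1
        rw [e2] at h2
        exact (mul_eq_zero.1 h2).resolve_right
          (mul_ne_zero (ht b b.2) (neg_ne_zero.2 (Units.ne_zero _)))
      · intro b' _ hne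
        have hne' : (b' : ℕ) ≠ b := fun h => hne (Fin.ext h)
        show c b' * (((1 : K) - t b') * Pv s b' k b) = 0
        rcases lt_or_gt_of_ne hne' with h | h
        · rw [ih b' (by omega) b' rfl, zero_mul]
        · have hb2 := b.2
          have e2 : Pv s b' k b = 0 := by
            unfold Pv
            rw [if_neg (by omega), if_neg (by omega), if_neg (by omega)]
          rw [e2, mul_zero, mul_zero]
      · intro h
        exact absurd (Finset.mem_univ b) h
    have h3 : ∑ i, c i • gen i = 0 := Finset.sum_eq_zero fun i _ => by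
      rw [hc0 i i rfl, zero_smul]
    rw [h3] at hc
    exact (congrArg Prod.snd hc).symm
  have hsur : ∀ w : V, ∃ z, (z, w) ∈ Γ := by
    intro w
    have : w ∈ Γ.map (LinearMap.snd K (ℕ → K) V) := by
      have h : (⊤ : Submodule K V) ≤ Γ.map (LinearMap.snd K (ℕ → K) V) := by
        rw [← hspan, Submodule.span_le]
        rintro _ ⟨j, hj, rfl⟩
        exact ⟨gen ⟨j, hj⟩, hg _, rfl⟩
      exact h Submodule.mem_top
    obtain ⟨x, hx, rfl⟩ := this
    exact ⟨x.1, hx⟩
  obtain ⟨ρ, h1, L, h2, h3⟩ := key f hf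
  refine hF f hf ⟨ρ⁻¹, LinearMap.ext fun w => ?_⟩
  obtain ⟨z, hz⟩ := hsur w
  have h4 : (L z, ρ • R f w) ∈ Γ := h3 ▸ ⟨(z, w), hz, rfl⟩
  have h5 : L z = z := (congrArg Prod.snd ((h2 z).symm.trans (htr s z)))
  have h6 := hzero (ρ • R f w - w) (by
    have := sub_mem h4 hz
    rwa [Prod.mk_sub_mk, h5, sub_self] at this)
  show R f w = ρ⁻¹ • w
  rw [eq_inv_smul_iff₀ h1]
  exact sub_eq_zero.1 h6

theorem crit_core [IsAlgClosed K] [FiniteDimensional K V] {k : ℕ} (h3 : 3 ≤ k)
    {R : BraidGroup (k + 1) → End K V} (hR : IsRep (Ps (k + 1) (k + 1)) R)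
    (hF : PF (Fs (k + 1) k) R) (hd : finrank K V ≤ k) : GassnerFaithful (k + 1) := by
  have hk : k < k + 1 := Nat.lt_succ_self k
  obtain ⟨W, _, _, _, R', h1, h2, h3', -, c, hc⟩ :=
    subq (K := K) (V := V) (Ps (k + 1) (k + 1)) (Fs (k + 1) k) (Fs_le hk le_rfl)
      (Fs_prime (by omega) hk) (Fs_ex (by omega) hk) (fun _ => 0) ∅ (by simp) 1 (one_mem _)
      (fun g _ => Commute.one_left g) R hR hF (by simp)
  obtain ⟨lam, hg, hA⟩ := good_rk1 h3 h1 h2 h3' (by omega)
  obtain ⟨Z, hZ⟩ := star_of (by omega) le_rfl hg hA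
  have hZ' : Star k (Xg k R' lam 1) Z := hZ
  obtain ⟨t, μ, v, hspan, hnf⟩ := star_nf h3 hZ'
  have ht := fun a ha => t_ne (a := a) (by omega) hspan hnf hZ'.n0 (star_scalar h3 hZ').1 ha
  intro κ hκ htriv
  have hκB : κ ∈ Bs (k + 1) (k + 1) := by
    rw [Bs_top]
    exact Subgroup.mem_top _
  have hκ1 : permHom (k + 1) κ = 1 := hκ
  obtain ⟨f, hf, b, hb, rfl⟩ := comb hk hκB (by rw [hκ1]; rfl)
  have hfP : f ∈ Ps (k + 1) (k + 1) := Fs_le hk le_rfl hf
  have hbP : b ∈ Ps (k + 1) (k + 1) := by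
    have := mul_mem (inv_mem hfP) (show f * b ∈ Ps (k + 1) (k + 1) from ⟨hκB, hκ⟩)
    rwa [inv_mul_cancel_left] at this
  have hb1 : b = 1 := by
    refine b_one hk hg (t := Function.update t k 1) (μ := μ) (v := Function.update v k 0) ?_ ?_
      hb hbP ?_
    · rw [← hspan]
      refine congrArg _ (Set.ext fun w => exists_congr fun j => and_congr_right fun hj => ?_)
      rw [Function.update_of_ne hj.ne]
    · intro a ha c hc
      have := hnf a ha c hc
      unfold gam at this ⊢
      simpa only [Function.update_of_ne ha.ne, Function.update_of_ne hc.ne] using this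
    · have e1 := act_triv hκ htriv (Function.update t k 1) (Function.update v k 0)
      have e2 := fix_Fs (K := K) (V := W) hk (p := (Function.update t k 1, Function.update v k 0))
        (by simp) (by simp) hf
      rw [map_mul, Equiv.Perm.mul_apply] at e1
      exact (act K W (k + 1) f).injective (e1.trans e2.symm)
  subst hb1
  rw [mul_one] at hκ htriv ⊢
  exact f_one hk h1 h3' hg.lam0 hspan hnf ht hf (fun s w => act_triv hκ htriv s w)

theorem crit {n : ℕ} (hn : 4 ≤ n) (ρ : PureBraid n →* GL (Fin (n - 1)) K)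
    (hρ : Function.Injective ρ) : GassnerFaithful n := by
  obtain ⟨k, rfl⟩ : ∃ k, n = k + 1 := ⟨n - 1, by omega⟩
  obtain ⟨R, h1, h2⟩ := from_rho (by omega) ρ hρ
  exact crit_core (by omega) h1 h2 (by simp)

end Pool.Agent.MP_b64966_al.GC
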