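import Pool.Agent.MP_b64966_al.PG.Main

namespace Pool.Agent.MP_b64966_al.GC

open Module Pool.Agent.MP_b64966_al.PG

universe u

variable {N : ℕ}

theorem fp_pick {α : Type} [DecidableEq α] {a0 a1 : α} (hk : a0 ≠ a1) (p q r : α × Bool) :
    ∃ s : α × Bool, s ≠ p ∧ s ≠ q ∧ s ≠ r := by
  by_contra hcon
  have hsub : ({a0, a1} : Finset α) ×ˢ (Finset.univ : Finset Bool) ⊆ {p, q, r} := by
    intro s _
    by_contra hs
    simp only [Finset.mem_insert, Finset.mem_singleton, not_or] at hs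
    exact hcon ⟨s, hs.1, hs.2.1, hs.2.2⟩
  have h1 := Finset.card_le_card hsub
  have h2 : ({p, q, r} : Finset (α × Bool)).card ≤ 3 := Finset.card_le_three
  rw [Finset.card_product, Finset.card_pair hk, Finset.card_univ, Fintype.card_bool] at h1
  omega

theorem fp_rel {α : Type} (p q : α × Bool) (h : q ≠ (p.1, !p.2)) : p.1 = q.1 → p.2 = q.2 := by
  obtain ⟨p1, p2⟩ := p
  obtain ⟨q1, q2⟩ := q
  intro e
  simp only at e
  subst e
  cases p2 <;> cases q2 <;> simp_all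

theorem fp_ne {α : Type} (p q : α × Bool) (h : p ≠ q) : (p.1, !p.2) ≠ (q.1, !q.2) := by
  intro e
  apply h
  obtain ⟨p1, p2⟩ := p
  obtain ⟨q1, q2⟩ := q
  simp only [Prod.mk.injEq] at e ⊢
  exact ⟨e.1, by cases p2 <;> cases q2 <;> simp_all⟩

theorem free_prime_gen {α : Type} [DecidableEq α] {a0 a1 : α} (hk : a0 ≠ a1) :
    PrimeGp (⊤ : Subgroup (FreeGroup α)) := by
  intro a _ b _ ha hb
  have hA : a.toWord ≠ [] := fun h => ha (FreeGroup.toWord_eq_nil_iff.mp h)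
  have hB : b.toWord ≠ [] := fun h => hb (FreeGroup.toWord_eq_nil_iff.mp h)
  have rA : FreeGroup.IsReduced a.toWord := FreeGroup.isReduced_toWord
  have rB : FreeGroup.IsReduced b.toWord := FreeGroup.isReduced_toWord
  have ea : a = FreeGroup.mk a.toWord := FreeGroup.mk_toWord.symm
  have eb : b = FreeGroup.mk b.toWord := FreeGroup.mk_toWord.symm
  generalize a.toWord = LA at hA rA ea
  generalize b.toWord = LB at hB rB eb
  subst ea eb
  obtain ⟨s, hs1, hs2, -⟩ := fp_pick hk (LA.head hA)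
    ((LA.getLast hA).1, !(LA.getLast hA).2) (LA.head hA)
  obtain ⟨t, ht1, ht2, ht3⟩ := fp_pick hk (s.1, !s.2)
    ((LB.head hB).1, !(LB.head hB).2) (LB.getLast hB)
  refine ⟨FreeGroup.mk [s, t], Subgroup.mem_top _, fun hc => ?_⟩
  have hw : FreeGroup.mk [s, t] * FreeGroup.mk LB * (FreeGroup.mk [s, t])⁻¹ =
      FreeGroup.mk (s :: (t :: (LB ++ [(t.1, !t.2), (s.1, !s.2)]))) := by
    rw [FreeGroup.inv_mk, FreeGroup.mul_mk, FreeGroup.mul_mk]
    simp [FreeGroup.invRev]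
  rw [hw] at hc
  have hhA : LA.head? = some (LA.head hA) := List.head?_eq_some_head hA
  have hlA : LA.getLast? = some (LA.getLast hA) := List.getLast?_eq_some_getLast hA
  have hhB : LB.head? = some (LB.head hB) := List.head?_eq_some_head hB
  have hlB : LB.getLast? = some (LB.getLast hB) := List.getLast?_eq_some_getLast hB
  have r1 : FreeGroup.IsReduced [(t.1, !t.2), (s.1, !s.2)] := by
    rw [FreeGroup.isReduced_cons_cons]
    refine ⟨fp_rel _ _ ?_, FreeGroup.IsReduced.singleton⟩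
    intro e
    apply ht1
    rw [e]; simp
  have r2 : FreeGroup.IsReduced (LB ++ [(t.1, !t.2), (s.1, !s.2)]) := by
    refine List.IsChain.append rB r1 ?_
    intro x hx y hy
    rw [hlB] at hx
    simp only [Option.mem_def, Option.some.injEq, List.head?_cons] at hx hy
    subst hx hy
    exact fp_rel _ _ (fp_ne _ _ ht3)
  have r3 : FreeGroup.IsReduced (t :: (LB ++ [(t.1, !t.2), (s.1, !s.2)])) := by
    refine List.isChain_cons.mpr ⟨?_, r2⟩
    intro y hy
    rw [List.head?_append, hhB] at hy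
    simp only [Option.mem_def, Option.some_or, Option.some.injEq] at hy
    subst hy
    refine fp_rel _ _ fun e => ht2 ?_
    rw [e]; simp
  have r4 : FreeGroup.IsReduced (s :: (t :: (LB ++ [(t.1, !t.2), (s.1, !s.2)]))) := by
    rw [FreeGroup.isReduced_cons_cons]
    exact ⟨fp_rel _ _ ht1, r3⟩
  have hlast : (s :: (t :: (LB ++ [(t.1, !t.2), (s.1, !s.2)]))).getLast? = some (s.1, !s.2) := by
    have : s :: (t :: (LB ++ [(t.1, !t.2), (s.1, !s.2)])) =
        (s :: t :: LB ++ [(t.1, !t.2)]) ++ [(s.1, !s.2)] := by simp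
    rw [this, List.getLast?_concat]
  generalize hW : t :: (LB ++ [(t.1, !t.2), (s.1, !s.2)]) = W at r4 hlast hc
  have r5 : FreeGroup.IsReduced (LA ++ s :: W) := by
    refine List.IsChain.append rA r4 ?_
    intro x hx y hy
    rw [hlA] at hx
    simp only [Option.mem_def, Option.some.injEq, List.head?_cons] at hx hy
    subst hx hy
    exact fp_rel _ _ hs2
  have r6 : FreeGroup.IsReduced (s :: W ++ LA) := by
    refine List.IsChain.append r4 rA ?_
    intro x hx y hy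
    rw [hlast] at hx
    rw [hhA] at hy
    simp only [Option.mem_def, Option.some.injEq] at hx hy
    subst hx hy
    refine fp_rel _ _ fun e => hs1 ?_
    rw [e]; simp
  have e1 := congrArg FreeGroup.toWord hc.eq
  rw [FreeGroup.mul_mk, FreeGroup.mul_mk, FreeGroup.toWord_mk, FreeGroup.toWord_mk,
    r5.reduce_eq, r6.reduce_eq] at e1
  have e2 := congrArg List.head? e1
  rw [List.head?_append, hhA] at e2
  simp only [Option.some_or, List.cons_append, List.head?_cons, Option.some.injEq] at e2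
  exact hs1 e2.symm


theorem sub_prime {k : ℕ} (S : Subgroup (FreeGroup (Fin k))) {p q : FreeGroup (Fin k)}
    (hp : p ∈ S) (hq : q ∈ S) (hpq : ¬ Commute p q) : PrimeGp S := by
  classical
  let φ : S ≃* FreeGroup (IsFreeGroup.Generators S) := IsFreeGroup.toFreeGroup S
  have hnt : ∃ a0 a1 : IsFreeGroup.Generators S, a0 ≠ a1 := by
    by_contra hcon
    have hall : ∀ a0 a1 : IsFreeGroup.Generators S, a0 = a1 := fun a0 a1 => by
      by_contra h
      exact hcon ⟨a0, a1, h⟩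
    have hc : ∀ x y : FreeGroup (IsFreeGroup.Generators S), Commute x y := by
      intro x y
      induction x using FreeGroup.induction_on with
      | C1 => exact Commute.one_left _
      | of a =>
        induction y using FreeGroup.induction_on with
        | C1 => exact Commute.one_right _
        | of b => rw [hall a b]
        | inv_of b ih => exact ih.inv_right
        | mul b c ih1 ih2 => exact ih1.mul_right ih2
      | inv_of a ih => exact ih.inv_left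
      | mul a b ih1 ih2 => exact ih1.mul_left ih2
    have := (hc (φ ⟨p, hp⟩) (φ ⟨q, hq⟩)).eq
    rw [← map_mul, ← map_mul] at this
    exact hpq (congrArg Subtype.val (φ.injective this))
  obtain ⟨a0, a1, h01⟩ := hnt
  intro a ha b hb ha1 hb1
  obtain ⟨e, -, he⟩ := free_prime_gen h01 (φ ⟨a, ha⟩) (Subgroup.mem_top _) (φ ⟨b, hb⟩)
    (Subgroup.mem_top _)
    (fun h => ha1 (congrArg Subtype.val (φ.injective (h.trans (map_one φ).symm))))
    (fun h => hb1 (congrArg Subtype.val (φ.injective (h.trans (map_one φ).symm))))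
  refine ⟨(φ.symm e : S), (φ.symm e).2, fun hc => he ?_⟩
  have h1 : Commute (⟨a, ha⟩ : S) (φ.symm e * ⟨b, hb⟩ * (φ.symm e)⁻¹) := Subtype.ext hc.eq
  have h2 := h1.map φ
  simpa only [map_mul, map_inv, MulEquiv.apply_symm_apply] using h2

theorem ev_range (k : ℕ) :
    (FreeGroup.lift (fun j : Fin k => A N j k)).range = Fs N k := by
  rw [FreeGroup.range_lift_eq_closure, Fs]
  refine congrArg Subgroup.closure (Set.ext fun g => ?_)
  constructor
  · rintro ⟨j, rfl⟩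
    exact ⟨j, j.2, rfl⟩
  · rintro ⟨j, hj, rfl⟩
    exact ⟨⟨j, hj⟩, rfl⟩

theorem A_Fs {j k : ℕ} (h : j < k) : A N j k ∈ Fs N k := Subgroup.subset_closure ⟨j, h, rfl⟩

theorem noncomm3 {k : ℕ} (h3 : 3 ≤ k) (hk : k < N) :
    ¬ Commute (A N 0 k * A N 1 k) (A N 2 k) := by
  intro hc
  have h1 : (FreeGroup.of ⟨0, by omega⟩ * FreeGroup.of ⟨1, by omega⟩ * FreeGroup.of ⟨2, by omega⟩ :
      FreeGroup (Fin k)) =
      FreeGroup.of ⟨2, by omega⟩ * (FreeGroup.of ⟨0, by omega⟩ * FreeGroup.of ⟨1, by omega⟩) := by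
    apply ev_inj hk
    simpa only [map_mul, FreeGroup.lift_apply_of] using hc.eq
  have h2 := congrArg (FreeGroup.lift (fun j : Fin k =>
    if (j : ℕ) = 0 then Equiv.swap (0 : Fin 3) 1 else if (j : ℕ) = 2 then Equiv.swap (1 : Fin 3) 2
    else 1)) h1
  simp only [map_mul, FreeGroup.lift_apply_of] at h2
  revert h2
  simp only [if_true, OfNat.ofNat_ne_zero, if_false, one_ne_zero, OfNat.one_ne_ofNat]
  decide

/-- centraliser of the first generator squared -/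
def Ca (N : ℕ) : Subgroup (BraidGroup N) := Subgroup.centralizer {A N 0 1}

theorem mem_Ca {g : BraidGroup N} : g ∈ Ca N ↔ Commute (A N 0 1) g := mem_cent

theorem sg_Ca {i : ℕ} (h : 2 ≤ i) : sg N i ∈ Ca N := by
  rw [mem_Ca, show A N 0 1 = A N 0 (0 + 1) from rfl, A_succ]
  exact (sg_far (by omega)).pow_left 2

theorem A_Ca {j k : ℕ} (h : 2 ≤ j) (hj : j < k) (hk : k < N) : A N j k ∈ Ca N := by
  rw [mem_Ca, show A N 0 1 = A N 0 (0 + 1) from rfl, A_succ]
  exact (A_comm hj hk (Or.inl (by omega))).pow_left 2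

theorem A01_Ca {k : ℕ} (h : 2 ≤ k) (hk : k < N) : A N 0 k * A N 1 k ∈ Ca N :=
  mem_Ca.2 (pz (by omega) (by omega) hk).2.2

theorem Fc_prime {k : ℕ} (h3 : 3 ≤ k) (hk : k < N) : PrimeGp (Fs N k ⊓ Ca N) := by
  let ev : FreeGroup (Fin k) →* BraidGroup N := FreeGroup.lift (fun j : Fin k => A N j k)
  have hr : ev.range = Fs N k := ev_range k
  have hi : Function.Injective ev := ev_inj hk
  have hp := sub_prime ((Ca N).comap ev)
    (p := FreeGroup.of ⟨0, by omega⟩ * FreeGroup.of ⟨1, by omega⟩) (q := FreeGroup.of ⟨2, by omega⟩)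
    (by
      rw [Subgroup.mem_comap]
      simpa only [ev, map_mul, FreeGroup.lift_apply_of] using A01_Ca (by omega) hk)
    (by
      rw [Subgroup.mem_comap]
      simpa only [ev, FreeGroup.lift_apply_of] using A_Ca le_rfl (by omega) hk)
    (fun hc => noncomm3 h3 hk (by
      simpa only [ev, map_mul, FreeGroup.lift_apply_of] using hc.map ev))
  rintro a ⟨ha, ha'⟩ b ⟨hb, hb'⟩ h1 h2
  rw [← hr] at ha hb
  obtain ⟨a, rfl⟩ := ha
  obtain ⟨b, rfl⟩ := hb
  obtain ⟨e, he, hne⟩ := hp a ha' b hb' (fun h => h1 (by rw [h, map_one]))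
    (fun h => h2 (by rw [h, map_one]))
  refine ⟨ev e, ⟨hr ▸ ⟨e, rfl⟩, he⟩, fun hc => hne (hi ?_)⟩
  simpa only [map_mul, map_inv] using hc.eq

variable {K : Type u} [Field K] {V : Type u} [AddCommGroup V] [Module K V]

theorem conj_sc {G : Type*} [Group G] {H : Subgroup G} {R : G → End K V} (hR : IsRep H R)
    {x p : G} (hx : x ∈ H) (hp : p ∈ H) {c : K} (h : R x = c • (1 : End K V)) :
    R (p * x * p⁻¹) = c • (1 : End K V) := by
  rw [hR.conj hp hx, h, mul_smul_comm, mul_one, smul_mul_assoc, hR.mul_inv hp]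

theorem sc_comm {k : ℕ} (hk : k < N) {R : BraidGroup N → End K V}
    (hR : IsRep (Ps N (k + 1) ⊓ Ca N) R) (hF : PF (Fs N k ⊓ Ca N) R) {x w : BraidGroup N}
    (hx : x ∈ Ps N (k + 1) ⊓ Ca N) {c : K} (h : R x = c • (1 : End K V))
    (hw : w ∈ Fs N k ⊓ Ca N) : Commute x w := by
  have hw' : w ∈ Ps N (k + 1) ⊓ Ca N := ⟨Fs_le (Nat.lt_succ_self k) hk hw.1, hw.2⟩
  have h1 : w * x * w⁻¹ * x⁻¹ ∈ Fs N k ⊓ Ca N := by
    refine ⟨?_, (Ca N).mul_mem ((Ca N).mul_mem ((Ca N).mul_mem hw.2 hx.2) ((Ca N).inv_mem hw.2))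
      ((Ca N).inv_mem hx.2)⟩
    have e : w * x * w⁻¹ * x⁻¹ = w * (x * w⁻¹ * x⁻¹) := by group
    rw [e]
    exact mul_mem hw.1 (Fs_normP hk hx.1 (inv_mem hw.1))
  have h2 := hF _ h1 ⟨1, by
    rw [hR.2 _ (mul_mem (mul_mem hw' hx) (inv_mem hw')) _ (inv_mem hx), conj_sc hR hx hw' h, ← h,
      hR.mul_inv hx, one_smul]⟩
  rw [mul_inv_eq_one, mul_inv_eq_iff_eq_mul] at h2
  exact h2.symm

theorem raise_Fs {k : ℕ} {f : BraidGroup N} (hf : f ∈ Fs N k) :
    sg N k * f * (sg N k)⁻¹ ∈ Fs N (k + 1) := by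
  induction hf using Subgroup.closure_induction with
  | mem x hx =>
    obtain ⟨j, hj, rfl⟩ := hx
    rw [A_raise hj]
    exact A_Fs (by omega)
  | one => simp
  | mul x y _ _ h1 h2 =>
    have e : sg N k * (x * y) * (sg N k)⁻¹ =
      sg N k * x * (sg N k)⁻¹ * (sg N k * y * (sg N k)⁻¹) := by group
    rw [e]
    exact mul_mem h1 h2
  | inv x _ h1 =>
    have e : sg N k * x⁻¹ * (sg N k)⁻¹ = (sg N k * x * (sg N k)⁻¹)⁻¹ := by group
    rw [e]
    exact inv_mem h1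

theorem pfc_down {k : ℕ} (h2 : 2 ≤ k) (hk : k + 1 < N) {R : BraidGroup N → End K V}
    (hR : IsRep (Ps N (k + 1 + 1) ⊓ Ca N) R) (hF : PF (Fs N (k + 1) ⊓ Ca N) R) :
    PF (Fs N k ⊓ Ca N) R := by
  rintro f hf ⟨c, hc⟩
  by_contra hne
  have hg : sg N k ∈ Bs N (k + 1 + 1) := sg_mem (by omega)
  have hgc : sg N k ∈ Ca N := sg_Ca h2
  have hw : A N k (k + 1) ∈ Fs N (k + 1) ⊓ Ca N := ⟨A_Fs (by omega), A_Ca h2 (by omega) hk⟩
  obtain ⟨e, he, h3⟩ := Fc_prime (k := k + 1) (by omega) hk _ hw (sg N k * f * (sg N k)⁻¹)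
    ⟨raise_Fs hf.1, (Ca N).mul_mem ((Ca N).mul_mem hgc hf.2) ((Ca N).inv_mem hgc)⟩ (A_ne (by omega) hk)
    (fun h => hne (by
      have e : f = (sg N k)⁻¹ * (sg N k * f * (sg N k)⁻¹) * sg N k := by group
      rw [e, h]
      group))
  have x1 : f ∈ Ps N (k + 1 + 1) ⊓ Ca N := ⟨Fs_le (by omega) hk hf.1, hf.2⟩
  have x2 : (sg N k)⁻¹ * e * (sg N k)⁻¹⁻¹ ∈ Ps N (k + 1 + 1) ⊓ Ca N :=
    ⟨conj_mem_Ps (inv_mem hg) (Fs_le (by omega) hk he.1),
      (Ca N).mul_mem ((Ca N).mul_mem ((Ca N).inv_mem hgc) he.2)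
        ((Ca N).inv_mem ((Ca N).inv_mem hgc))⟩
  have h4 := sc_comm hk hR hF (mul_mem (mul_mem x2 x1) (inv_mem x2)) (conj_sc hR x1 x2 hc) hw
  apply h3
  rw [A_succ] at h4 ⊢
  generalize sg N k = g at h4 ⊢
  have h5 : g ^ 2 * (e * (g * f * g⁻¹) * e⁻¹) =
      g * (g ^ 2 * (g⁻¹ * e * g⁻¹⁻¹ * f * (g⁻¹ * e * g⁻¹⁻¹)⁻¹)) * g⁻¹ := by group
  have h6 : e * (g * f * g⁻¹) * e⁻¹ * g ^ 2 =
      g * (g⁻¹ * e * g⁻¹⁻¹ * f * (g⁻¹ * e * g⁻¹⁻¹)⁻¹ * g ^ 2) * g⁻¹ := by group
  unfold Commute SemiconjBy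
  rw [h5, h6, h4.eq]

theorem Fc_ex {k : ℕ} (h3 : 3 ≤ k) (hk : k < N) : ∃ f ∈ Fs N k ⊓ Ca N, f ≠ 1 :=
  ⟨A N 2 k, ⟨A_Fs (by omega), A_Ca le_rfl (by omega) hk⟩, A_ne (by omega) hk⟩

theorem lbc [IsAlgClosed K] {k : ℕ} (h3 : 3 ≤ k) (hk : k < N) :
    ∀ (W : Type u) [AddCommGroup W] [Module K W] [FiniteDimensional K W]
      (R : BraidGroup N → End K W), IsRep (Ps N (k + 1) ⊓ Ca N) R → PF (Fs N k ⊓ Ca N) R →
      k - 1 ≤ finrank K W := by
  induction k, h3 using Nat.le_induction with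
  | base =>
    intro W _ _ _ R hR hF
    by_contra hlt
    have h1 : finrank K W ≤ 1 := by omega
    obtain ⟨v, hv⟩ := finrank_le_one_iff.1 h1
    obtain ⟨c, hc⟩ := hv (R (A N 2 3) v)
    refine A_ne (N := N) (j := 2) (k := 3) (by omega) hk
      (hF _ ⟨A_Fs (by omega), A_Ca le_rfl (by omega) hk⟩ ⟨c, ?_⟩)
    ext w
    obtain ⟨a, rfl⟩ := hv w
    simp [← hc, smul_smul, mul_comm]
  | succ k h3 ih =>
    intro W _ _ _ R hR hF
    obtain ⟨y, hy, hy1, hyc⟩ := exists_y (N := N) (k := k + 1) (by omega) hk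
    have hyC : y ∈ Ca N :=
      mem_Ca.2 (hyc _ (A_mem (N := N) (i := 0) (k := 1) (n := k + 1) (by omega) (by omega)
        (by omega)).1).symm
    have hle : Ps N (k + 1) ⊓ Ca N ≤ (Ps N (k + 1 + 1) ⊓ Ca N) ⊓ Subgroup.centralizer {y} :=
      fun g hg => ⟨⟨Ps_mono (by omega) hg.1, hg.2⟩, mem_cent.2 (hyc g hg.1.1)⟩
    obtain ⟨W', _, _, _, R', h1, -, h3', -, c, hc⟩ :=
      subq (K := K) (V := W) ((Ps N (k + 1 + 1) ⊓ Ca N) ⊓ Subgroup.centralizer {y})
        (Fs N k ⊓ Ca N)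
        (fun g hg => hle ⟨Fs_le (by omega) (by omega) hg.1, hg.2⟩) (Fc_prime h3 (by omega))
        (Fc_ex h3 (by omega)) (fun _ => 0) ∅ (by simp) y
        ⟨⟨Fs_le (by omega) hk hy, hyC⟩, mem_cent.2 (Commute.refl y)⟩
        (fun g hg => mem_cent.1 hg.2) R (hR.mono inf_le_left)
        (pfc_down (by omega) hk hR hF) (by simp)
    have h5 := ih (by omega) W' R' (h1.mono hle) h3'
    have : finrank K (LinearMap.range (R y - c • (1 : End K W))) ≠ 0 := by
      intro h0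
      have := LinearMap.range_eq_bot.1 (Submodule.finrank_eq_zero.1 h0)
      exact hy1 (hF y ⟨hy, hyC⟩ ⟨c, sub_eq_zero.1 this⟩)
    omega

theorem rank_one [IsAlgClosed K] [FiniteDimensional K V] {k : ℕ} (h3 : 3 ≤ k) (hk : k < N)
    {R : BraidGroup N → End K V} (hR : IsRep (Ps N (k + 1)) R) (hF : PF (Fs N k) R)
    {g : BraidGroup N} (hg : g ∈ Bs N (k + 1)) :
    ∃ c : K, finrank K (LinearMap.range (R (g * A N 0 1 * g⁻¹) - c • (1 : End K V))) + (k - 1)
      ≤ finrank K V := by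
  obtain ⟨W', _, _, _, R', h1, -, h3', -, c, hc⟩ :=
    subq (K := K) (V := V) (Ps N (k + 1) ⊓ Ca N) (Fs N k ⊓ Ca N)
      (fun g hg => ⟨Fs_le (by omega) hk hg.1, hg.2⟩) (Fc_prime h3 hk)
      (Fc_ex h3 hk) (fun _ => 0) ∅ (by simp) (A N 0 1)
      ⟨A_mem (by omega) (by omega) hk, mem_Ca.2 (Commute.refl _)⟩
      (fun g hg => mem_Ca.1 hg.2) (tw g R) ((rep_tw hR hg).mono inf_le_left)
      (fun f hf => pf_tw (by omega) hk hR hF hg f hf.1) (by simp)
  have h5 := lbc h3 hk W' R' h1 h3'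
  refine ⟨c, ?_⟩
  have e : tw g R (A N 0 1) = R (g * A N 0 1 * g⁻¹) := rfl
  rw [e] at hc
  omega

end Pool.Agent.MP_b64966_al.GC
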