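import Pool.Agent.MP_b64966_al.GC.Rank

namespace Pool.Agent.MP_b64966_al.GC

open Module Pool.Agent.MP_b64966_al.PG

universe u

variable {N : ℕ} {K : Type u} [Field K] {V : Type u} [AddCommGroup V] [Module K V]

theorem rk1 [FiniteDimensional K V] {S T : End K V} (hT : finrank K (LinearMap.range T) ≤ 1)
    (h : S * T = T * S) : ∃ β : K, S * T = β • T := by
  obtain ⟨v, hv⟩ := finrank_le_one_iff.1 hT
  have hmem : S (v : V) ∈ LinearMap.range T := by
    obtain ⟨w, hw⟩ := v.2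
    exact ⟨S w, by rw [← hw]; exact (LinearMap.congr_fun h w).symm⟩
  obtain ⟨β, hβ⟩ := hv ⟨_, hmem⟩
  have hβ' : β • (v : V) = S v := congrArg Subtype.val hβ
  refine ⟨β, LinearMap.ext fun w => ?_⟩
  obtain ⟨a, ha⟩ := hv ⟨T w, w, rfl⟩
  have ha' : a • (v : V) = T w := congrArg Subtype.val ha
  show S (T w) = β • T w
  rw [← ha', map_smul, ← hβ', smul_comm]

theorem comm_Nn {G : Type*} [Group G] {H : Subgroup G} {R : G → End K V} (hR : IsRep H R)
    (lam : G → K) {p c : G} (hp : p ∈ H) (hc : c ∈ H) (h : Commute c p) :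
    R p * Nn R lam c = Nn R lam c * R p := by
  unfold Nn
  rw [mul_sub, sub_mul, ← hR.2 _ hp _ hc, ← hR.2 _ hc _ hp, h.eq]
  simp

theorem k3_rk1 [FiniteDimensional K V] {G : Type*} [Group G] {H : Subgroup G}
    {R : G → End K V} (hR : IsRep H R) (lam : G → K) {c p q : G} (hc : c ∈ H) (hp : p ∈ H)
    (hq : q ∈ H) (h1 : Commute c p) (h2 : Commute c q)
    (hT : finrank K (LinearMap.range (Nn R lam c)) ≤ 1) : K3 R lam c p q := by
  obtain ⟨α, hα⟩ := rk1 hT (comm_Nn hR lam hp hc h1)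
  obtain ⟨β, hβ⟩ := rk1 hT (comm_Nn hR lam hq hc h2)
  unfold K3
  rw [sub_mul, mul_assoc, mul_assoc, hα, hβ, mul_smul_comm, mul_smul_comm, hα, hβ, smul_comm,
    sub_self]

theorem c01 {i : ℕ} (h : 2 ≤ i) : Commute (A N 0 1) (A N i (i + 1)) := by
  rw [show A N 0 1 = A N 0 (0 + 1) from rfl, A_succ, A_succ]
  exact ((sg_far (by omega)).pow_left 2).pow_right 2

theorem good_rk1 [IsAlgClosed K] [FiniteDimensional K V] {k : ℕ} (h3 : 3 ≤ k)
    {R : BraidGroup (k + 1) → End K V} (hR : IsRep (Ps (k + 1) (k + 1)) R)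
    (hI : Irr (Ps (k + 1) (k + 1)) R) (hF : PF (Fs (k + 1) k) R) (hd : finrank K V ≤ k) :
    ∃ lam, Good (k + 1) R lam ∧ TypeA (k + 1) R lam := by
  have hk : k < k + 1 := Nat.lt_succ_self k
  let lam : BraidGroup (k + 1) → K := fun a =>
    pick (fun c => finrank K (LinearMap.range (R a - c • (1 : End K V))) ≤ 1)
  have lamc : ∀ p ∈ Ps (k + 1) (k + 1), ∀ a ∈ Ps (k + 1) (k + 1), lam (p * a * p⁻¹) = lam a := by
    intro p hp a ha
    refine congrArg pick (funext fun c => propext ⟨fun h => le_trans ?_ h,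
      fun h => (hR.rank_conj hp ha c).trans h⟩)
    have := hR.rank_conj (inv_mem hp) (mul_mem (mul_mem hp ha) (inv_mem hp)) c
    rwa [show p⁻¹ * (p * a * p⁻¹) * p⁻¹⁻¹ = a by group] at this
  have m01 : A (k + 1) 0 1 ∈ Ps (k + 1) (k + 1) := A_mem (by omega) (by omega) le_rfl
  have m23 : A (k + 1) 2 3 ∈ Ps (k + 1) (k + 1) := A_mem (by omega) (by omega) le_rfl
  have m34 : A (k + 1) 3 4 ∈ Ps (k + 1) (k + 1) := by
    rcases h3.lt_or_eq with h | h
    · exact A_mem (by omega) (by omega) le_rfl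
    · have e : sg (k + 1) 3 = 1 := dif_neg (by omega)
      rw [show A (k + 1) 3 4 = A (k + 1) 3 (3 + 1) from rfl, A_succ, e, one_pow]
      exact one_mem _
  have mY : ∀ l, 2 ≤ l → l ≤ k → A (k + 1) 0 l * A (k + 1) 1 l ∈ Ps (k + 1) (k + 1) :=
    fun l h h' => mul_mem (A_mem (by omega) (by omega) le_rfl) (A_mem (by omega) (by omega) le_rfl)
  have hrank : ∀ g ∈ Bs (k + 1) (k + 1),
      finrank K (LinearMap.range (Nn (tw g R) (tw g lam) (A (k + 1) 0 1))) ≤ 1 := by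
    intro g hg
    obtain ⟨c, hc⟩ := rank_one h3 hk hR hF hg
    refine pick_spec (P := fun c => finrank K (LinearMap.range
      (R (g * A (k + 1) 0 1 * g⁻¹) - c • (1 : End K V))) ≤ 1) ⟨c, ?_, by omega⟩
    rintro rfl
    have hp := conj_mem_Ps hg m01
    have : LinearMap.range (R (g * A (k + 1) 0 1 * g⁻¹)) = ⊤ := by
      rw [LinearMap.range_eq_top]
      intro v
      exact ⟨R (g * A (k + 1) 0 1 * g⁻¹)⁻¹ v, LinearMap.congr_fun (hR.mul_inv hp) v⟩
    rw [zero_smul, sub_zero, this, finrank_top] at hc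
    omega
  refine ⟨lam, ⟨hR, hI, hF, fun a => pick_ne _, lamc, fun g hg => ?_, fun g hg => ?_⟩,
    fun g hg => ?_⟩
  · exact k3_rk1 (rep_tw hR hg) _ m01 m23 m34 (c01 le_rfl) (c01 (i := 3) (by omega)) (hrank g hg)
  · exact k3_rk1 (rep_tw hR hg) _ m01 m23 (mY 2 le_rfl (by omega)) (c01 le_rfl)
      (pz (by omega) (by omega) (by omega)).2.2 (hrank g hg)
  · obtain ⟨e, he, hee⟩ := emb (N := k + 1) (n := k + 1) (r := 1) le_rfl (fun a => 2 + a)
      (by intro a _; omega) (by show 2 + 1 < k + 1; omega)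
    have h01 : e * A (k + 1) 0 1 * e⁻¹ = A (k + 1) 2 3 := hee 0 1 (by omega) le_rfl
    have hb : finrank K (LinearMap.range (Nn (tw g R) (tw g lam) (A (k + 1) 2 3))) ≤ 1 := by
      have h := hrank (g * e) (mul_mem hg he)
      have e1 : g * e * A (k + 1) 0 1 * (g * e)⁻¹ = g * A (k + 1) 2 3 * g⁻¹ := by
        rw [← h01]
        group
      unfold Nn tw at h ⊢
      rwa [e1] at h
    have ha := hrank g hg
    have hR' := rep_tw hR hg
    have hF' : PF (Fs (k + 1) 3) (tw g R) :=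
      pf_down (by omega) h3 hk hR' (pf_tw (by omega) hk hR hF hg)
    generalize tw g R = R' at ha hb hR' hF'
    generalize tw g lam = lam' at ha hb
    have hab : Nn R' lam' (A (k + 1) 0 1) * Nn R' lam' (A (k + 1) 2 3) =
        Nn R' lam' (A (k + 1) 2 3) * Nn R' lam' (A (k + 1) 0 1) := by
      have := comm_Nn hR' lam' m01 m23 (c01 (N := k + 1) (i := 2) le_rfl).symm
      conv_lhs => rw [Nn, sub_mul, this]
      conv_rhs => rw [Nn.eq_1 R' lam' (A (k + 1) 0 1), mul_sub]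
      simp
    obtain ⟨α, hα⟩ := rk1 hb hab
    obtain ⟨β, hβ⟩ := rk1 ha hab.symm
    by_contra hne
    have hα0 : α ≠ 0 := by
      rintro rfl
      exact hne (by rw [hα, zero_smul])
    have hz := comm_Nn hR' lam' (mY 3 (by omega) h3) m01 (pz (by omega) (by omega) (by omega)).2.2
    have hba : Nn R' lam' (A (k + 1) 2 3) = (α⁻¹ * β) • Nn R' lam' (A (k + 1) 0 1) := by
      rw [mul_smul, ← hβ, ← hab, hα, smul_smul, inv_mul_cancel₀ hα0, one_smul]
    have hz2 : R' (A (k + 1) 0 3 * A (k + 1) 1 3) * Nn R' lam' (A (k + 1) 2 3) =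
        Nn R' lam' (A (k + 1) 2 3) * R' (A (k + 1) 0 3 * A (k + 1) 1 3) := by
      rw [hba, mul_smul_comm, smul_mul_assoc, hz]
    have hzF : A (k + 1) 0 3 * A (k + 1) 1 3 ∈ Fs (k + 1) 3 :=
      mul_mem (A_Fs (by omega)) (A_Fs (by omega))
    have hbF : A (k + 1) 2 3 ∈ Fs (k + 1) 3 := A_Fs (by omega)
    have hzP := mY 3 (by omega) h3
    apply noncomm3 (N := k + 1) (k := 3) le_rfl (by omega)
    generalize A (k + 1) 0 3 * A (k + 1) 1 3 = z at hz2 hzF hzP
    generalize A (k + 1) 2 3 = b at hz2 hbF m23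
    have h1 : R' (z * b) = R' (b * z) := by
      rw [hR'.2 _ hzP _ m23, hR'.2 _ m23 _ hzP]
      unfold Nn at hz2
      simpa [mul_sub, sub_mul] using hz2
    have h2 := hF' (z * b * (b * z)⁻¹)
      (mul_mem (mul_mem hzF hbF) (inv_mem (mul_mem hbF hzF))) ⟨1, by
        rw [hR'.2 _ (mul_mem hzP m23) _ (inv_mem (mul_mem m23 hzP)), h1,
          hR'.mul_inv (mul_mem m23 hzP), one_smul]⟩
    exact mul_inv_eq_one.1 h2

end Pool.Agent.MP_b64966_al.GC
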